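import Pool.Agent.Q40.OD.Stm1

/-! Project OD, lemma OD-4: heights of the kernels. -/

set_option autoImplicit false

namespace Pool.Agent.Q128.OD

open Pool.Agent.Q40.OD Pool.Agent.H918R2.Quad MvPolynomial

/-- The kernel of the reduction of coefficients modulo a prime. -/
noncomputable def KP {S : Type} [CommRing S] (σ : Type) (P : Ideal S) :
    Ideal (MvPolynomial σ S) :=
  RingHom.ker (map (Ideal.Quotient.mk P) : MvPolynomial σ S →+* MvPolynomial σ (S ⧸ P))

theorem mem_KP {S : Type} [CommRing S] {σ : Type} (P : Ideal S) (f : MvPolynomial σ S) :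
    f ∈ KP σ P ↔ ∀ m, coeff m f ∈ P := by
  unfold KP
  rw [RingHom.mem_ker, MvPolynomial.ext_iff]
  constructor
  · intro h m
    have := h m
    rw [coeff_map, coeff_zero] at this
    exact Ideal.Quotient.eq_zero_iff_mem.1 this
  · intro h m
    rw [coeff_map, coeff_zero]
    exact Ideal.Quotient.eq_zero_iff_mem.2 (h m)

instance KP_prime {S : Type} [CommRing S] {σ : Type} (P : Ideal S) [P.IsPrime] :
    (KP σ P).IsPrime := by
  unfold KP
  exact RingHom.ker_isPrime _

theorem height_KP {S : Type} [CommRing S] {σ : Type} (n : ℕ) :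
    ∀ (P : Ideal S) [P.IsPrime], (n : ℕ∞) ≤ P.height → (n : ℕ∞) ≤ (KP σ P).height := by
  induction n with
  | zero => intro P _ _; simp
  | succ n ih =>
    intro P _ hP
    have h1 : ¬ P.height ≤ n := by
      intro h
      have h2 : ((n + 1 : ℕ) : ℕ∞) ≤ (n : ℕ∞) := hP.trans h
      have h3 : n + 1 ≤ n := by exact_mod_cast h2
      omega
    rw [Ideal.height_le_iff] at h1
    push Not at h1
    obtain ⟨P', hP', hlt, hge⟩ := h1
    have h2 := ih P' hge
    have hlt' : KP σ P' < KP σ P := by
      refine lt_of_le_of_ne ?_ ?_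
      · intro f hf
        rw [mem_KP] at hf ⊢
        exact fun m => hlt.le (hf m)
      · intro h
        obtain ⟨x, hx, hx'⟩ := Set.exists_of_ssubset hlt
        apply hx'
        have h5 : (C x : MvPolynomial σ S) ∈ KP σ P := by
          classical
          rw [mem_KP]
          intro m
          rw [coeff_C]
          split_ifs
          · exact hx
          · exact P.zero_mem
        rw [← h, mem_KP] at h5
        have := h5 0
        rwa [coeff_zero_C] at this
    have h3 := Ideal.height_add_one_le_of_lt_of_isPrime hlt'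
    calc ((n + 1 : ℕ) : ℕ∞) = (n : ℕ∞) + 1 := by push_cast; ring
      _ ≤ (KP σ P').height + 1 := by gcongr
      _ ≤ _ := h3

/-- Killing a variable increases the height by at least one. -/
theorem height_kill {W C : Type} [CommRing W] [IsDomain W] [CommRing C] [IsDomain C] (θ : W →+* C)
    (hθ : Function.Surjective θ) (x : W) (hx : x ≠ 0) (hx0 : θ x = 0) (n : ℕ) (P : Ideal C)
    [P.IsPrime] (hn : (n : ℕ∞) ≤ P.height) : ((n + 1 : ℕ) : ℕ∞) ≤ (P.comap θ).height := by
  have h1 := height_comap_ge θ hθ n P hn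
  have h2 : (1 : ℕ∞) ≤ (RingHom.ker θ).height := by
    rw [Order.one_le_iff_ne_zero]
    intro h
    have : (RingHom.ker θ).IsPrime := RingHom.ker_isPrime _
    rw [Ideal.height_eq_zero_iff_eq_bot] at h
    have h3 : x ∈ RingHom.ker θ := hx0
    rw [h] at h3
    exact hx h3
  refine le_trans ?_ h1
  calc ((n + 1 : ℕ) : ℕ∞) = 1 + (n : ℕ∞) := by push_cast; ring
    _ ≤ _ := by gcongr

/-- The homomorphism that kills `none`. -/
noncomputable def k1 (S τ : Type) [CommRing S] : MvPolynomial (Option τ) S →+* MvPolynomial τ S :=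
  eval₂Hom C (fun o : Option τ => o.elim 0 X)

theorem k1_surj (S τ : Type) [CommRing S] : Function.Surjective (k1 S τ) := by
  intro p
  refine ⟨rename some p, ?_⟩
  unfold k1
  rw [coe_eval₂Hom, eval₂_rename]
  have : ((fun o : Option τ => o.elim 0 X) ∘ some : τ → MvPolynomial τ S) = X := by
    funext a; rfl
  rw [this]
  exact eval₂_eta p

/-- The homomorphism that kills `i`. -/
noncomputable def k2 (S : Type) {τ : Type} [CommRing S] [DecidableEq τ] (i : τ) :
    MvPolynomial τ S →+* MvPolynomial {a : τ // a ≠ i} S :=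
  eval₂Hom C (fun a => if h : a = i then 0 else X ⟨a, h⟩)

theorem k2_surj (S : Type) {τ : Type} [CommRing S] [DecidableEq τ] (i : τ) :
    Function.Surjective (k2 S i) := by
  intro p
  refine ⟨rename Subtype.val p, ?_⟩
  unfold k2
  rw [coe_eval₂Hom, eval₂_rename]
  have : ((fun a => if h : a = i then 0 else X ⟨a, h⟩) ∘ Subtype.val :
      {a : τ // a ≠ i} → MvPolynomial {a : τ // a ≠ i} S) = X := by
    funext a
    simp [a.2]
  rw [this]
  exact eval₂_eta p

theorem ker_th1 {S τ : Type} [CommRing S] (Q : Ideal S) :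
    RingHom.ker (eval₂Hom (C.comp (Ideal.Quotient.mk Q))
      (fun o : Option τ => o.elim 0 X) :
        MvPolynomial (Option τ) S →+* MvPolynomial τ (S ⧸ Q)) = (KP τ Q).comap (k1 S τ) := by
  have h : (eval₂Hom (C.comp (Ideal.Quotient.mk Q))
      (fun o : Option τ => o.elim 0 X) :
        MvPolynomial (Option τ) S →+* MvPolynomial τ (S ⧸ Q)) =
        (map (Ideal.Quotient.mk Q)).comp (k1 S τ) := by
    apply MvPolynomial.ringHom_ext
    · intro r
      simp [k1]
    · intro o
      cases o with
      | none => simp [k1]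
      | some a => simp [k1]
  rw [h]
  rfl

theorem ker_th2 {S τ : Type} [CommRing S] [DecidableEq τ] (Q : Ideal S) (i : τ) :
    RingHom.ker (eval₂Hom (C.comp (Ideal.Quotient.mk Q))
      (fun o : Option τ => o.elim 0 fun a => if h : a = i then 0 else X ⟨a, h⟩) :
        MvPolynomial (Option τ) S →+* MvPolynomial {a : τ // a ≠ i} (S ⧸ Q)) =
      ((KP {a : τ // a ≠ i} Q).comap (k2 S i)).comap (k1 S τ) := by
  have h : (eval₂Hom (C.comp (Ideal.Quotient.mk Q))
      (fun o : Option τ => o.elim 0 fun a => if h : a = i then 0 else X ⟨a, h⟩) :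
        MvPolynomial (Option τ) S →+* MvPolynomial {a : τ // a ≠ i} (S ⧸ Q)) =
        ((map (Ideal.Quotient.mk Q)).comp (k2 S i)).comp (k1 S τ) := by
    apply MvPolynomial.ringHom_ext
    · intro r
      simp [k1, k2]
    · intro o
      cases o with
      | none => simp [k1]
      | some a =>
        by_cases ha : a = i
        · subst ha; simp [k1, k2]
        · simp [k1, k2, ha]
  rw [h]
  rfl

theorem od4 : S_OD4 := by
  intro S τ _ _ _ _ _ Q _ n hn i
  have hX : (X none : MvPolynomial (Option τ) S) ≠ 0 := X_ne_zero _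
  constructor
  · rw [ker_th1]
    refine height_kill (k1 S τ) (k1_surj S τ) (X none) hX ?_ n _ (height_KP n Q hn)
    simp [k1]
  · rw [ker_th2]
    have hXi : (X i : MvPolynomial τ S) ≠ 0 := X_ne_zero _
    have h1 := height_kill (k2 S i) (k2_surj S i) (X i) hXi (by simp [k2]) n _
      (height_KP (σ := {a : τ // a ≠ i}) n Q hn)
    exact height_kill (k1 S τ) (k1_surj S τ) (X none) hX (by simp [k1]) (n + 1) _ h1

end Pool.Agent.Q128.OD
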