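import Pool.Agent.Q128.OD.H4

/-! Project OD, lemma OD-5: regularity of the charts, first case. -/

set_option autoImplicit false

namespace Pool.Agent.Q128.OD

open Pool.Agent.Q40.OD Pool.Agent.H918R2.Quad MvPolynomial

/-- The homomorphism of the second part of OD-4. -/
noncomputable def th2 {S τ : Type} [CommRing S] [DecidableEq τ] (Q : Ideal S) (i : τ) :
    MvPolynomial (Option τ) S →+* MvPolynomial {a : τ // a ≠ i} (S ⧸ Q) :=
  eval₂Hom (C.comp (Ideal.Quotient.mk Q))
      (fun o : Option τ => o.elim 0 fun a => if h : a = i then 0 else X ⟨a, h⟩)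

/-- The homomorphism of the first part of OD-4. -/
noncomputable def th1 {S : Type} (τ : Type) [CommRing S] (Q : Ideal S) :
    MvPolynomial (Option τ) S →+* MvPolynomial τ (S ⧸ Q) :=
  eval₂Hom (C.comp (Ideal.Quotient.mk Q)) (fun o : Option τ => o.elim 0 X)

theorem th1_surj {S τ : Type} [CommRing S] (Q : Ideal S) : Function.Surjective (th1 τ Q) := by
  intro p
  obtain ⟨p', rfl⟩ := map_surjective (Ideal.Quotient.mk Q) Ideal.Quotient.mk_surjective p
  refine ⟨rename some p', ?_⟩
  unfold th1
  rw [coe_eval₂Hom, eval₂_rename, ← MvPolynomial.eval₂_map]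
  have : ((fun o : Option τ => o.elim 0 X) ∘ some : τ → MvPolynomial τ (S ⧸ Q)) = X := by
    funext a; rfl
  rw [this]
  exact eval₂_eta _

theorem th2_surj {S τ : Type} [CommRing S] [DecidableEq τ] (Q : Ideal S) (i : τ) :
    Function.Surjective (th2 Q i) := by
  intro p
  obtain ⟨p', rfl⟩ := map_surjective (Ideal.Quotient.mk Q) Ideal.Quotient.mk_surjective p
  refine ⟨rename (fun a => some a.1) p', ?_⟩
  unfold th2
  rw [coe_eval₂Hom, eval₂_rename, ← MvPolynomial.eval₂_map]
  have : ((fun o : Option τ => o.elim 0 fun a => if h : a = i then 0 else X ⟨a, h⟩) ∘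
      (fun a => some a.1) :
      {a : τ // a ≠ i} → MvPolynomial {a : τ // a ≠ i} (S ⧸ Q)) = X := by
    funext a
    simp [a.2]
  rw [this]
  exact eval₂_eta _

theorem eval₂_zero_of_mem {S σ B : Type} [CommRing S] [CommRing B] (Q : Ideal S) (g : MvPolynomial σ S)
    (hg : ∀ m, coeff m g ∈ Q) (f : S →+* B) (hf : ∀ x ∈ Q, f x = 0) (y : σ → B) :
    eval₂ f y g = 0 := by
  rw [eval₂_eq]
  apply Finset.sum_eq_zero
  intro m _
  rw [hf _ (hg m), zero_mul]

theorem ker_le_th1 {S τ : Type} [CommRing S] (Q : Ideal S)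
    (L : Ideal (MvPolynomial (Option τ) S)) (h0 : X none ∈ L) (h2 : ∀ x ∈ Q, C x ∈ L) :
    RingHom.ker (th1 τ Q) ≤ L := by
  intro f hf
  unfold th1 at hf
  rw [ker_th1, Ideal.mem_comap, mem_KP] at hf
  let φ : MvPolynomial (Option τ) S →+* (MvPolynomial (Option τ) S ⧸ L) := Ideal.Quotient.mk L
  have h : φ = (eval₂Hom (φ.comp C) (fun a => φ (X (some a)))).comp (k1 S τ) := by
    apply MvPolynomial.ringHom_ext
    · intro r
      simp [k1]
    · intro o
      cases o with
      | none =>
        simp only [k1, RingHom.comp_apply, coe_eval₂Hom, eval₂_X, Option.elim, map_zero]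
        simpa using Ideal.Quotient.eq_zero_iff_mem.2 h0
      | some a => simp [k1]
  rw [← Ideal.Quotient.eq_zero_iff_mem]
  change φ f = 0
  rw [h, RingHom.comp_apply, coe_eval₂Hom]
  refine eval₂_zero_of_mem Q _ hf _ ?_ _
  intro x hx
  exact Ideal.Quotient.eq_zero_iff_mem.2 (h2 x hx)

theorem ker_le_th2 {S τ : Type} [CommRing S] [DecidableEq τ] (Q : Ideal S) (i : τ)
    (L : Ideal (MvPolynomial (Option τ) S)) (h0 : X none ∈ L) (h1 : X (some i) ∈ L)
    (h2 : ∀ x ∈ Q, C x ∈ L) : RingHom.ker (th2 Q i) ≤ L := by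
  intro f hf
  unfold th2 at hf
  rw [ker_th2, Ideal.mem_comap, Ideal.mem_comap, mem_KP] at hf
  let φ : MvPolynomial (Option τ) S →+* (MvPolynomial (Option τ) S ⧸ L) := Ideal.Quotient.mk L
  have h : φ = ((eval₂Hom (φ.comp C) (fun a : {a : τ // a ≠ i} => φ (X (some a.1)))).comp
      (k2 S i)).comp (k1 S τ) := by
    apply MvPolynomial.ringHom_ext
    · intro r
      simp [k1, k2]
    · intro o
      cases o with
      | none =>
        simp only [k1, RingHom.comp_apply, coe_eval₂Hom, eval₂_X, Option.elim, map_zero]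
        simpa using Ideal.Quotient.eq_zero_iff_mem.2 h0
      | some a =>
        by_cases ha : a = i
        · subst ha
          simp only [k1, k2, RingHom.comp_apply, coe_eval₂Hom, eval₂_X, Option.elim, dif_pos,
            map_zero]
          simpa using Ideal.Quotient.eq_zero_iff_mem.2 h1
        · simp [k1, k2, ha]
  rw [← Ideal.Quotient.eq_zero_iff_mem]
  change φ f = 0
  rw [h, RingHom.comp_apply, RingHom.comp_apply, coe_eval₂Hom]
  refine eval₂_zero_of_mem Q _ hf _ ?_ _
  intro x hx
  exact Ideal.Quotient.eq_zero_iff_mem.2 (h2 x hx)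

/-- The elements that lie in `I` after multiplication by an element outside `p`. -/
def Lid {W A : Type} [CommRing W] [CommRing A] (pr : W →+* A) (p I : Ideal A) [p.IsPrime] :
    Ideal W where
  carrier := {x | ∃ c, pr c ∉ p ∧ pr (c * x) ∈ I}
  add_mem' := by
    rintro x y ⟨c, hc, hx⟩ ⟨d, hd, hy⟩
    refine ⟨c * d, ?_, ?_⟩
    · rw [map_mul]
      intro h
      rcases Ideal.IsPrime.mem_or_mem inferInstance h with h | h
      · exact hc h
      · exact hd h
    · have : pr (c * d * (x + y)) = pr d * pr (c * x) + pr c * pr (d * y) := by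
        simp only [map_mul, map_add]; ring
      rw [this]
      exact I.add_mem (I.mul_mem_left _ hx) (I.mul_mem_left _ hy)
  zero_mem' := by
    refine ⟨1, ?_, ?_⟩
    · rw [map_one]
      exact (Ideal.ne_top_iff_one p).1 (Ideal.IsPrime.ne_top inferInstance)
    · simp
  smul_mem' := by
    rintro w x ⟨c, hc, hx⟩
    refine ⟨c, hc, ?_⟩
    have : pr (c * (w • x)) = pr w * pr (c * x) := by
      simp only [smul_eq_mul, map_mul]; ring
    rw [this]
    exact I.mul_mem_left _ hx

/-- The relations as a finset. -/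
noncomputable def relF {S τ : Type} [CommRing S] [Fintype τ] [DecidableEq τ] (q : τ → τ → S) (u : S)
    (π : S) (D : τ → S) (i : τ) (k v : ℕ) : Finset (MvPolynomial (Option τ) S) := by
  classical
  exact insert (EE q u i k v) (insert (C π - X none * X (some i))
    (Finset.univ.image fun a => C (D a) - X none ^ k * X (some i) ^ (k + 1) * sv S i a))

theorem relF_coe {S τ : Type} [CommRing S] [Fintype τ] [DecidableEq τ] (q : τ → τ → S) (u : S)
    (π : S) (D : τ → S) (i : τ) (k v : ℕ) :
    (relF q u π D i k v : Set (MvPolynomial (Option τ) S)) =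
      insert (EE q u i k v) (rels π D k i) := by
  classical
  unfold relF rels
  simp

theorem relF_card {S τ : Type} [CommRing S] [Fintype τ] [DecidableEq τ] (q : τ → τ → S) (u : S)
    (π : S) (D : τ → S) (i : τ) (k v : ℕ) :
    (relF q u π D i k v).card ≤ Fintype.card τ + 2 := by
  classical
  unfold relF
  refine (Finset.card_insert_le _ _).trans ?_
  have h1 := Finset.card_insert_le (C π - X none * X (some i) : MvPolynomial (Option τ) S)
    (Finset.univ.image fun a => C (D a) - X none ^ k * X (some i) ^ (k + 1) * sv S i a)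
  have h2 : (Finset.univ.image fun a => (C (D a) - X none ^ k * X (some i) ^ (k + 1) * sv S i a :
    MvPolynomial (Option τ) S)).card ≤ Fintype.card τ := by
    refine Finset.card_image_le.trans ?_
    simp
  omega

theorem rel_pi {S τ A : Type} [CommRing S] [Fintype τ] [DecidableEq τ] [CommRing A]
    (π : S) (D : τ → S) (q : τ → τ → S) (u : S) (i : τ) (k v : ℕ)
    (pr : MvPolynomial (Option τ) S →+* A)
    (hker : RingHom.ker pr = Ideal.span (insert (EE q u i k v) (rels π D k i))) :
    pr (C π) = pr (X none) * pr (X (some i)) := by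
  have h : (C π - X none * X (some i) : MvPolynomial (Option τ) S) ∈ RingHom.ker pr := by
    rw [hker]
    exact Ideal.subset_span (Or.inr (Or.inl rfl))
  rw [RingHom.mem_ker, map_sub, map_mul, sub_eq_zero] at h
  exact h

theorem rel_D {S τ A : Type} [CommRing S] [Fintype τ] [DecidableEq τ] [CommRing A]
    (π : S) (D : τ → S) (q : τ → τ → S) (u : S) (i : τ) (k v : ℕ)
    (pr : MvPolynomial (Option τ) S →+* A)
    (hker : RingHom.ker pr = Ideal.span (insert (EE q u i k v) (rels π D k i))) (a : τ) :
    pr (C (D a)) = pr (X none) ^ k * pr (X (some i)) ^ (k + 1) * pr (sv S i a) := by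
  have h : (C (D a) - X none ^ k * X (some i) ^ (k + 1) * sv S i a : MvPolynomial (Option τ) S) ∈
      RingHom.ker pr := by
    rw [hker]
    exact Ideal.subset_span (Or.inr (Or.inr ⟨a, rfl⟩))
  rw [RingHom.mem_ker, map_sub, map_mul, map_mul, map_pow, map_pow, sub_eq_zero] at h
  exact h

theorem rel_E {S τ A : Type} [CommRing S] [Fintype τ] [DecidableEq τ] [CommRing A]
    (π : S) (D : τ → S) (q : τ → τ → S) (u : S) (i : τ) (k v : ℕ)
    (pr : MvPolynomial (Option τ) S →+* A)
    (hker : RingHom.ker pr = Ideal.span (insert (EE q u i k v) (rels π D k i))) :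
    pr (EE q u i k v) = 0 := by
  have h : EE q u i k v ∈ RingHom.ker pr := by
    rw [hker]
    exact Ideal.subset_span (Or.inl rfl)
  exact h

/-- The image of `Q` lies in an ideal that contains the images of the generators, up to
denominators. -/
theorem Lid_Q {S τ A : Type} [CommRing S] [Fintype τ] [DecidableEq τ] [CommRing A] (Q : Ideal S)
    (π : S) (D : τ → S)
    (hgen : ∀ x ∈ Q, ∃ c, c ∉ Q ∧ c * x ∈ Ideal.span (insert π (Set.range D)))
    (pr : MvPolynomial (Option τ) S →+* A)
    (p I : Ideal A) [p.IsPrime] (hpQ : ∀ x : S, pr (C x) ∈ p ↔ x ∈ Q)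
    (h1 : pr (C π) ∈ I) (h2 : ∀ a, pr (C (D a)) ∈ I) (x : S) (hx : x ∈ Q) :
    (C x : MvPolynomial (Option τ) S) ∈ Lid pr p I := by
  obtain ⟨c, hc, hcx⟩ := hgen x hx
  refine ⟨C c, fun h => hc ((hpQ c).1 h), ?_⟩
  rw [← C_mul]
  have h3 : Ideal.span (insert π (Set.range D)) ≤ I.comap (pr.comp C) := by
    rw [Ideal.span_le]
    rintro y (rfl | ⟨a, rfl⟩)
    · exact h1
    · exact h2 a
  exact h3 hcx

theorem od5 (h4 : S_OD4) : S_OD5 := by
  classical
  intro S τ A _ _ _ _ _ _ Q _ π D hπ hD hgen hht q u hu i k pr hpr hker p _ hpQ hw hT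
  have : IsRegularRing (S ⧸ Q) := by
    let : Field (S ⧸ Q) := Ideal.Quotient.field Q
    infer_instance
  have hE : pr (X none) * pr (C u) = - (pr (X (some i)) * pr (qq q i)) := by
    have h := rel_E π D q u i k (2 * k + 1) pr hker
    have h1 : EE q u i k (2 * k + 1) = X none * C u + X (some i) * qq q i := by
      unfold EE
      rw [if_neg (by omega), if_pos rfl]
    rw [h1, map_add, map_mul, map_mul] at h
    exact eq_neg_of_add_eq_zero_left h
  have hTI : pr (X (some i)) ∈ Ideal.span {pr (X (some i))} := Ideal.mem_span_singleton_self _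
  have hpi : pr (C π) ∈ Ideal.span {pr (X (some i))} := by
    rw [rel_pi π D q u i k (2 * k + 1) pr hker]
    exact Ideal.mul_mem_left _ _ hTI
  have hDa : ∀ a, pr (C (D a)) ∈ Ideal.span {pr (X (some i))} := by
    intro a
    rw [rel_D π D q u i k (2 * k + 1) pr hker, pow_succ]
    exact Ideal.mul_mem_right _ _ (Ideal.mul_mem_left _ _ (Ideal.mul_mem_left _ _ hTI))
  refine reg_crit pr hpr (relF q u π D i k (2 * k + 1)) ?_ p (th2 Q i) (th2_surj Q i) ?_
    {X (some i)} ?_ ?_ ?_
  · rw [relF_coe]; exact hker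
  · apply ker_le_th2
    · exact hw
    · exact hT
    · intro x hx
      exact (hpQ x).2 hx
  · intro x hx
    rw [Finset.mem_singleton] at hx
    rw [hx]
    exact hT
  · have hI : pr '' (({X (some i)} : Finset (MvPolynomial (Option τ) S)) :
        Set (MvPolynomial (Option τ) S)) = {pr (X (some i))} := by
      simp
    rw [hI]
    intro x hx
    have h1 : RingHom.ker (th2 Q i) ≤ Lid pr p (Ideal.span {pr (X (some i))}) := by
      apply ker_le_th2
      · refine ⟨C u, fun h => hu ((hpQ u).1 h), ?_⟩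
        rw [map_mul, mul_comm, hE]
        exact neg_mem_iff.2 (Ideal.mul_mem_right _ _ hTI)
      · refine ⟨1, ?_, ?_⟩
        · rw [map_one]
          exact (Ideal.ne_top_iff_one p).1 (Ideal.IsPrime.ne_top inferInstance)
        · rw [one_mul]; exact hTI
      · exact Lid_Q Q π D hgen pr p _ hpQ hpi hDa
    exact h1 hx
  · have h1 := (h4 Q (Fintype.card τ + 1) hht i).2
    refine le_trans ?_ h1
    have h2 := relF_card q u π D i k (2 * k + 1)
    have h3 : ({X (some i)} : Finset (MvPolynomial (Option τ) S)).card +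
        (relF q u π D i k (2 * k + 1)).card ≤ Fintype.card τ + 1 + 2 := by
      rw [Finset.card_singleton]
      omega
    exact_mod_cast h3

end Pool.Agent.Q128.OD
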